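import Pool.Agent.H84.S2.TgD

/-!
# MP_70ba79_ag, row D_JDA: the dimension of the space of jets
-/

set_option autoImplicit false

namespace Pool.Agent.H10.S2

open MvPolynomial SC
open Pool.Agent.H27.LV (ge deg poleOrder canDeg)
open Pool.Agent.H84.SM (cr dt dp)
open Pool.Agent.H92.SF (Q2)
open Pool.Agent.H3.SF (Itg Bb BB Hm eu grd hes Sfc Crd Cnn Crf Prm nv Vl VQ evc FE E)
open Pool.Agent.H84.SF
open Pool.Agent.H3.S2
open Pool.Agent.H84.S2

section jets

variable {k O : Type} [Field k] [CommRing O] [Algebra k O]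

/-- a derivation lowers the order by at most one -/
theorem der_pow (D : Derivation k O O) (I : Ideal O) : ∀ (N : ℕ) (r : O), r ∈ I ^ (N + 1) →
    D r ∈ I ^ N := by
  intro N
  induction N with
  | zero =>
    intro r _
    rw [pow_zero, Ideal.one_eq_top]
    trivial
  | succ N ih =>
    intro r hr
    rw [pow_succ] at hr
    refine Submodule.mul_induction_on hr (fun a ha b hb => ?_) (fun a b ha hb => ?_)
    · rw [Derivation.leibniz, smul_eq_mul, smul_eq_mul]
      refine Ideal.add_mem _ (Ideal.mul_mem_right _ _ ha) ?_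
      rw [mul_comm, pow_succ]
      exact Ideal.mul_mem_mul (ih a ha) hb
    · rw [map_add]
      exact Ideal.add_mem _ ha hb

/-- iterated derivations -/
theorem der_iter (D : Derivation k O O) (I : Ideal O) (p : ℕ) : ∀ (N : ℕ) (r : O),
    r ∈ I ^ (N + p) → ((D : O →ₗ[k] O) ^ p) r ∈ I ^ N := by
  induction p with
  | zero =>
    intro N r hr
    rw [pow_zero]
    exact hr
  | succ p ih =>
    intro N r hr
    rw [pow_succ]
    exact ih N (D r) (der_pow D I (N + p) r hr)

variable {ε : O →ₐ[k] k} {X Y : O} {dX dY : Derivation k O O}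

/-- the iterated derivative of a monomial -/
theorem iterY (hF : Frm ε X Y dX dY) (a b q : ℕ) :
    ((dY : O →ₗ[k] O) ^ q) (X ^ a * Y ^ b) = (b.descFactorial q : O) * (X ^ a * Y ^ (b - q)) := by
  induction q with
  | zero => simp
  | succ q ih =>
    rw [pow_succ', Module.End.mul_apply, ih, Nat.descFactorial_succ]
    change dY _ = _
    rw [Derivation.leibniz, Derivation.map_natCast, Derivation.leibniz, Derivation.leibniz_pow,
      Derivation.leibniz_pow, hF.gx, hF.gg]
    simp only [smul_eq_mul, nsmul_eq_mul, mul_zero, mul_one, add_zero]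
    rw [Nat.sub_sub]
    push_cast
    ring

theorem iterX (hF : Frm ε X Y dX dY) (a b p : ℕ) :
    ((dX : O →ₗ[k] O) ^ p) (X ^ a * Y ^ b) = (a.descFactorial p : O) * (X ^ (a - p) * Y ^ b) := by
  induction p with
  | zero => simp
  | succ p ih =>
    rw [pow_succ', Module.End.mul_apply, ih, Nat.descFactorial_succ]
    change dX _ = _
    rw [Derivation.leibniz, Derivation.map_natCast, Derivation.leibniz, Derivation.leibniz_pow,
      Derivation.leibniz_pow, hF.xg, hF.xx]
    simp only [smul_eq_mul, nsmul_eq_mul, mul_zero, mul_one, zero_add, add_zero]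
    rw [Nat.sub_sub]
    push_cast
    ring

/-- the coefficients of a jet, up to factorials -/
noncomputable def jet (ε : O →ₐ[k] k) (dX dY : Derivation k O O) (p q : ℕ) : O →ₗ[k] k :=
  ε.toLinearMap ∘ₗ ((dX : O →ₗ[k] O) ^ p) ∘ₗ ((dY : O →ₗ[k] O) ^ q)

theorem jet_mon (hF : Frm ε X Y dX dY) (a b p q : ℕ) : jet ε dX dY p q (X ^ a * Y ^ b) =
    if (a, b) = (p, q) then (p.factorial : k) * q.factorial else 0 := by
  have hX : ε X = 0 := (hF.max X).2 ⟨1, 0, by ring⟩
  have hY : ε Y = 0 := (hF.max Y).2 ⟨0, 1, by ring⟩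
  have e : jet ε dX dY p q (X ^ a * Y ^ b) = (a.descFactorial p : k) * b.descFactorial q *
      (ε X ^ (a - p) * ε Y ^ (b - q)) := by
    change ε (((dX : O →ₗ[k] O) ^ p) (((dY : O →ₗ[k] O) ^ q) (X ^ a * Y ^ b))) = _
    rw [iterY hF, ← nsmul_eq_mul, map_nsmul, iterX hF, nsmul_eq_mul, map_mul, map_mul, map_mul,
      map_pow, map_pow, map_natCast, map_natCast]
    ring
  rw [e, hX, hY]
  split_ifs with h
  · rw [Prod.mk.injEq] at h
    obtain ⟨rfl, rfl⟩ := h
    simp [Nat.descFactorial_self]
  · rw [Prod.mk.injEq, not_and_or] at h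
    rcases h with h | h
    · rcases lt_or_gt_of_ne h with h1 | h1
      · rw [Nat.descFactorial_eq_zero_iff_lt.2 h1]
        simp
      · rw [zero_pow (by omega : a - p ≠ 0)]
        simp
    · rcases lt_or_gt_of_ne h with h1 | h1
      · rw [Nat.descFactorial_eq_zero_iff_lt.2 h1]
        simp
      · rw [zero_pow (by omega : b - q ≠ 0)]
        simp

theorem jet_zero (p q h : ℕ) (hpq : p + q < h) (r : O) (hr : r ∈ (RingHom.ker ε) ^ h) :
    jet ε dX dY p q r = 0 := by
  obtain ⟨N, hN⟩ : ∃ N, h = (N + 1 + p) + q := ⟨h - (p + q) - 1, by omega⟩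
  rw [hN] at hr
  have h1 := der_iter dY (RingHom.ker ε) q _ _ hr
  have h2 := der_iter dX (RingHom.ker ε) p _ _ h1
  have h3 : (RingHom.ker ε) ^ (N + 1) ≤ RingHom.ker ε := Ideal.pow_le_self (by omega)
  have h4 : ε (((dX : O →ₗ[k] O) ^ p) (((dY : O →ₗ[k] O) ^ q) r)) = 0 :=
    (RingHom.mem_ker).1 (h3 h2)
  exact h4

theorem appr (hF : Frm ε X Y dX dY) (h : ℕ) : ∀ f : O,
    ∃ m ∈ Submodule.span k {z : O | ∃ a b : ℕ, a + b < h ∧ z = X ^ a * Y ^ b},
      f - m ∈ (RingHom.ker ε) ^ h := by
  induction h with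
  | zero =>
    intro f
    refine ⟨0, zero_mem _, ?_⟩
    rw [pow_zero, Ideal.one_eq_top]
    trivial
  | succ h ih =>
    intro f
    obtain ⟨a, b, hab⟩ := (hF.max (f - algebraMap k O (ε f))).1 (by simp)
    obtain ⟨ma, hma, hra⟩ := ih a
    obtain ⟨mb, hmb, hrb⟩ := ih b
    have hX : X ∈ RingHom.ker ε := (hF.max X).2 ⟨1, 0, by ring⟩
    have hY : Y ∈ RingHom.ker ε := (hF.max Y).2 ⟨0, 1, by ring⟩
    refine ⟨algebraMap k O (ε f) + ma * X + mb * Y, ?_, ?_⟩
    · refine Submodule.add_mem _ (Submodule.add_mem _ ?_ ?_) ?_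
      · rw [Algebra.algebraMap_eq_smul_one]
        refine Submodule.smul_mem _ _ (Submodule.subset_span ⟨0, 0, by omega, by simp⟩)
      · refine Submodule.span_induction (p := fun z _ => z * X ∈ Submodule.span k
          {z : O | ∃ a b : ℕ, a + b < h + 1 ∧ z = X ^ a * Y ^ b}) ?_ ?_ ?_ ?_ hma
        · rintro z ⟨a, b, hlt, rfl⟩
          exact Submodule.subset_span ⟨a + 1, b, by omega, by ring⟩
        · rw [zero_mul]
          exact zero_mem _
        · intro x y _ _ hx hy
          rw [add_mul]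
          exact add_mem hx hy
        · intro c x _ hx
          rw [smul_mul_assoc]
          exact Submodule.smul_mem _ _ hx
      · refine Submodule.span_induction (p := fun z _ => z * Y ∈ Submodule.span k
          {z : O | ∃ a b : ℕ, a + b < h + 1 ∧ z = X ^ a * Y ^ b}) ?_ ?_ ?_ ?_ hmb
        · rintro z ⟨a, b, hlt, rfl⟩
          exact Submodule.subset_span ⟨a, b + 1, by omega, by ring⟩
        · rw [zero_mul]
          exact zero_mem _
        · intro x y _ _ hx hy
          rw [add_mul]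
          exact add_mem hx hy
        · intro c x _ hx
          rw [smul_mul_assoc]
          exact Submodule.smul_mem _ _ hx
    · have e : f - (algebraMap k O (ε f) + ma * X + mb * Y) = (a - ma) * X + (b - mb) * Y := by
        linear_combination hab
      rw [e, pow_succ]
      exact Ideal.add_mem _ (Ideal.mul_mem_mul hra hX) (Ideal.mul_mem_mul hrb hY)

/-- the exponents -/
def Tr (h : ℕ) : Finset (ℕ × ℕ) := (Finset.range h ×ˢ Finset.range h).filter fun p => p.1 + p.2 < h

theorem mem_Tr (h a b : ℕ) : (a, b) ∈ Tr h ↔ a + b < h := by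
  simp only [Tr, Finset.mem_filter, Finset.mem_product, Finset.mem_range]
  omega

theorem card_Tr (h : ℕ) : 2 * (Tr h).card = h * (h + 1) := by
  induction h with
  | zero => simp [Tr]
  | succ h ih =>
    have e : Tr (h + 1) = Tr h ∪ Finset.HasAntidiagonal.antidiagonal h := by
      ext ⟨a, b⟩
      rw [Finset.mem_union, mem_Tr, mem_Tr, Finset.HasAntidiagonal.mem_antidiagonal]
      omega
    have hd : Disjoint (Tr h) (Finset.HasAntidiagonal.antidiagonal h) := by
      rw [Finset.disjoint_left]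
      rintro ⟨a, b⟩ h1 h2
      rw [mem_Tr] at h1
      rw [Finset.HasAntidiagonal.mem_antidiagonal] at h2
      omega
    rw [e, Finset.card_union_of_disjoint hd, Finset.Nat.card_antidiagonal, mul_add, ih]
    ring

end jets

/-- JDA: the dimension of the space of jets -/
theorem pf_JDA : T_JDA := by
  classical
  intro k O _ _ _ _ ε X Y dX dY hF h
  obtain ⟨b, hb⟩ : ∃ b : Tr h → O ⧸ (RingHom.ker ε) ^ h, b = fun t =>
      Ideal.Quotient.mk _ (X ^ t.1.1 * Y ^ t.1.2) := ⟨_, rfl⟩
  have hli : LinearIndependent k b := by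
    rw [Fintype.linearIndependent_iff]
    intro g hg t
    have h1 : ∑ s : Tr h, g s • (X ^ s.1.1 * Y ^ s.1.2) ∈ (RingHom.ker ε) ^ h := by
      rw [← Ideal.Quotient.eq_zero_iff_mem, map_sum, ← hg]
      refine Finset.sum_congr rfl fun s _ => ?_
      rw [hb, Algebra.smul_def, Algebra.smul_def, map_mul]
      rfl
    have ht : t.1.1 + t.1.2 < h := (mem_Tr h _ _).1 t.2
    have h2 := jet_zero (dX := dX) (dY := dY) t.1.1 t.1.2 h ht _ h1
    rw [map_sum, Finset.sum_eq_single t] at h2
    · rw [map_smul, jet_mon hF, if_pos rfl, smul_eq_mul] at h2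
      have h3 : (t.1.1.factorial : k) * t.1.2.factorial ≠ 0 :=
        mul_ne_zero (Nat.cast_ne_zero.2 (Nat.factorial_ne_zero _))
          (Nat.cast_ne_zero.2 (Nat.factorial_ne_zero _))
      exact (mul_eq_zero.1 h2).resolve_right h3
    · intro s _ hs
      rw [map_smul, jet_mon hF, if_neg, smul_zero]
      intro h3
      exact hs (Subtype.ext (Prod.ext (congrArg Prod.fst h3) (congrArg Prod.snd h3)))
    · intro h3
      exact absurd (Finset.mem_univ t) h3
  have hsp : ⊤ ≤ Submodule.span k (Set.range b) := by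
    intro z _
    obtain ⟨f, rfl⟩ := Ideal.Quotient.mk_surjective z
    obtain ⟨m, hm, hr⟩ := appr hF h f
    have h1 : Ideal.Quotient.mk ((RingHom.ker ε) ^ h) f = Ideal.Quotient.mk _ m :=
      Ideal.Quotient.eq.2 hr
    rw [h1]
    refine Submodule.span_induction (p := fun z _ => Ideal.Quotient.mk ((RingHom.ker ε) ^ h) z ∈
      Submodule.span k (Set.range b)) ?_ ?_ ?_ ?_ hm
    · rintro z ⟨p, q, hlt, rfl⟩
      refine Submodule.subset_span ⟨⟨(p, q), (mem_Tr h p q).2 hlt⟩, ?_⟩
      rw [hb]
    · rw [map_zero]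
      exact zero_mem _
    · intro x y _ _ hx hy
      rw [map_add]
      exact add_mem hx hy
    · intro c x _ hx
      have e : Ideal.Quotient.mk ((RingHom.ker ε) ^ h) (c • x) =
          c • Ideal.Quotient.mk ((RingHom.ker ε) ^ h) x := by
        rw [Algebra.smul_def, Algebra.smul_def, map_mul]
        rfl
      rw [e]
      exact Submodule.smul_mem _ _ hx
  have B := Module.Basis.mk hli hsp
  refine ⟨Module.Finite.of_basis B, ?_⟩
  rw [Module.finrank_eq_card_basis B, Fintype.card_coe, card_Tr]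

end Pool.Agent.H10.S2
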