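import Pool.Agent.H84.S2.Tg
import Pool.Agent.H70.SF.DSO

/-!
# MP_70ba79_ag, THEOREM S, part 2: LCX, contact with the curve at a node
-/

set_option autoImplicit false

namespace Pool.Agent.H10.S2

open MvPolynomial SC
open Pool.Agent.H27.LV (ge deg poleOrder canDeg)
open Pool.Agent.H84.SM (cr dt dp)
open Pool.Agent.H3.SF (Itg Bb BB Hm eu grd hes Sfc Crd Cnn Crf Prm nv)
open Pool.Agent.H84.SF Pool.Agent.H3.S2 Pool.Agent.H84.S2
open Pool.Agent.H70.SF (dt_map bcy_zero)

section algebra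

variable {R : Type} [CommRing R]

theorem dt_eq3 (a b c : Fin 3 → R) : dt a b c =
    a 0 * (b 1 * c 2 - b 2 * c 1) + a 1 * (b 2 * c 0 - b 0 * c 2) +
      a 2 * (b 0 * c 1 - b 1 * c 0) := by
  simp only [dt, dp, cr, Fin.sum_univ_three]
  rfl

/-- scaling of the direction -/
theorem dt_dir (a b c d : Fin 3 → R) (l l' : R)
    (hd : ∀ i, d i = l * (l' * b i + l * c i)) :
    dt a (fun i => l * b i) d = l ^ 3 * dt a b c := by
  rw [dt_eq3, dt_eq3, hd, hd, hd]
  ring

/-- the determinant for the new frame -/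
theorem dt_frame (a p q x y : Fin 3 → R) (z e t m : R) (hx : ∀ i, x i = p i + z * q i - m * y i)
    (hy : ∀ i, y i = e * (t * q i)) : dt a x y = e * t * dt a p q := by
  rw [dt_eq3, dt_eq3]
  simp only [hx, hy]
  ring

end algebra

section orders

variable {k K : Type} [Field k] [Field K] [Algebra k K]

theorem ord_one (v : DV k K) : v.ord 1 = 0 := by
  have := v.ord_base 1
  rwa [map_one] at this

theorem ge_ord {v : DV k K} {t : ℤ} {x : K} (h : ge v t x) (hx : x ≠ 0) : t ≤ v.ord x :=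
  h.resolve_left hx

/-- units have order zero -/
theorem ord_unit {v : DV k K} {a b : K} (ha : ge v 0 a) (hb : ge v 0 b) (h : a * b = 1) :
    v.ord a = 0 := by
  have ha0 : a ≠ 0 := left_ne_zero_of_mul_eq_one h
  have hb0 : b ≠ 0 := right_ne_zero_of_mul_eq_one h
  have h1 := v.ord_mul a b ha0 hb0
  rw [h, ord_one] at h1
  have h2 := ge_ord ha ha0
  have h3 := ge_ord hb hb0
  omega

end orders

section local_

variable {k O O' : Type} [Field k] [CommRing O] [Algebra k O]
  [CommRing O'] [IsDomain O'] [Algebra k O']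

/-- the frame of the blow-up and the derivation along the curve -/
theorem delta_eq {X : O} {dX dY : Derivation k O O} {ι : O →ₐ[k] O'} {Z : O'}
    {dX' dZ' dX'' dG' : Derivation k O' O'} {G : O} {G' η : O'} (hξ : ι X ≠ 0)
    (hX1 : dX' (ι X) = 1) (hZ0 : dZ' (ι X) = 0) (hG : ι G = ι X ^ 2 * G')
    (hdZ : ∀ h, dZ' (ι h) = ι X * ι (dY h)) (hdX : ∀ h, dX' (ι h) = ι (dX h) + Z * ι (dY h))
    (hdG : ∀ h, dG' h = η * dZ' h) (hdX'' : ∀ h, dX'' h = dX' h - dX' G' * dG' h)
    (hη : dZ' G' * η = 1) :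
    ι (dY G) = ι X * dZ' G' ∧ ∀ h, ι (dY G * dX h - dX G * dY h) =
      ι (dY G) * dX'' (ι h) - 2 * G' * dZ' G' * dG' (ι h) := by
  have e1 : dZ' (ι G) = ι X ^ 2 * dZ' G' := by
    rw [hG, Derivation.leibniz, Derivation.leibniz_pow, hZ0]
    simp
  have e2 : ι (dY G) = ι X * dZ' G' := by
    rw [hdZ] at e1
    apply mul_left_cancel₀ hξ
    rw [e1]
    ring
  have e3 : dX' (ι G) = 2 * ι X * G' + ι X ^ 2 * dX' G' := by
    rw [hG, Derivation.leibniz, Derivation.leibniz_pow, hX1]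
    simp
    ring
  rw [hdX] at e3
  refine ⟨e2, fun h => ?_⟩
  apply mul_left_cancel₀ hξ
  have e4 := hdX h
  have e5 := hdZ h
  have e6 : dZ' (ι h) = dZ' G' * dG' (ι h) := by
    rw [hdG, ← mul_assoc, hη, one_mul]
  have e7 := hdX'' (ι h)
  rw [map_sub, map_mul, map_mul]
  rw [e6] at e5
  rw [e2] at e3 ⊢
  linear_combination (-(ι X * dZ' G' * ι X)) * e7 + (-(ι X * dZ' G' * ι X)) * e4 -
    ι X * ι (dY h) * e3 + (2 * G' * ι X + ι X ^ 2 * dX' G') * e5

omit [IsDomain O'] [Algebra k O'] in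
theorem eval_mp (φ : O →+* O') (w : Fin 3 → O) (b : MvPolynomial (Fin 3) O) :
    φ (eval w b) = eval (fun i => φ (w i)) (map φ b) := by
  rw [eval_map, eval, coe_eval₂Hom, eval₂_comp_left φ (RingHom.id O) w b]
  rfl

omit [IsDomain O'] in
theorem bloc_zero (dX dG : Derivation k O' O') (p : Fin 3 → O') (A : O')
    (b : MvPolynomial (Fin 3) O') (hb : b.IsHomogeneous 3) :
    bloc dX dG p A b 0 = A * dt p (fun i => dX (p i)) (fun i => dX (dX (p i))) +
      eval (fun i => dX (p i)) b := by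
  rw [← bcy_zero (fun i => dX (p i)) (fun i => dG (p i)) b hb]
  rfl

/-- the equation along the curve, in the frame of the blow-up -/
theorem bloc_dvd {X : O} {dX dY : Derivation k O O} {ι : O →ₐ[k] O'} {Z : O'}
    {dX' dZ' dX'' dG' : Derivation k O' O'} {G : O} {G' η : O'} (hξ : ι X ≠ 0)
    (hX1 : dX' (ι X) = 1) (hZ0 : dZ' (ι X) = 0) (hG : ι G = ι X ^ 2 * G')
    (hdZ : ∀ h, dZ' (ι h) = ι X * ι (dY h)) (hdX : ∀ h, dX' (ι h) = ι (dX h) + Z * ι (dY h))
    (hdG : ∀ h, dG' h = η * dZ' h) (hdX'' : ∀ h, dX'' h = dX' h - dX' G' * dG' h)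
    (hη : dZ' G' * η = 1) (hxg : dX'' G' = 0) (hpr : Prime G') (hnX : ¬ G' ∣ ι X)
    (p : Fin 3 → O) (A : O) (b : MvPolynomial (Fin 3) O) (E : O) (hb : b.IsHomogeneous 3)
    (hdvd : ∀ δ : Derivation k O O, (∀ h, δ h = dY G * dX h - dX G * dY h) →
      G ∣ (A * dt p (fun i => δ (p i)) (fun i => δ (δ (p i))) +
        eval (fun i => δ (p i)) b) * E) :
    G' ∣ bloc dX'' dG' (fun i => ι (p i)) (ι A) (map (ι : O →+* O') b) 0 ∨ G' ∣ ι E := by
  obtain ⟨hl, hδ⟩ := delta_eq hξ hX1 hZ0 hG hdZ hdX hdG hdX'' hη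
  obtain ⟨δ, hδd⟩ : ∃ δ : Derivation k O O, ∀ h, δ h = dY G * dX h - dX G * dY h :=
    ⟨dY G • dX - dX G • dY, fun h => rfl⟩
  have hδ1 : ∀ h, ι (δ h) = ι (dY G) * dX'' (ι h) - 2 * G' * dZ' G' * dG' (ι h) := fun h => by
    rw [hδd, hδ]
  obtain ⟨m, hm⟩ := hdvd δ hδd
  let π := Ideal.Quotient.mk (Ideal.span {G'})
  have hπG : π G' = 0 := Ideal.Quotient.eq_zero_iff_mem.mpr (Ideal.mem_span_singleton_self G')
  have h1 : ∀ h, π (ι (δ h)) = π (ι (dY G)) * π (dX'' (ι h)) := by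
    intro h
    rw [hδ1, map_sub, map_mul, map_mul π (2 * G' * dZ' G'), map_mul π (2 * G'), map_mul π 2, hπG]
    ring
  have h2 : ∀ h, π (dX'' (ι (δ h))) = π (dX'' (ι (dY G))) * π (dX'' (ι h)) +
      π (ι (dY G)) * π (dX'' (dX'' (ι h))) := by
    intro h
    have e1 : dX'' (ι (δ h)) = dX'' (ι (dY G)) * dX'' (ι h) + ι (dY G) * dX'' (dX'' (ι h)) -
        G' * dX'' (2 * dZ' G' * dG' (ι h)) := by
      have e2 : ι (δ h) = ι (dY G) * dX'' (ι h) - G' * (2 * dZ' G' * dG' (ι h)) := by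
        rw [hδ1]
        ring
      rw [e2, map_sub, Derivation.leibniz, Derivation.leibniz dX'' G', hxg, smul_zero, add_zero]
      simp only [smul_eq_mul]
      ring
    rw [e1, map_sub, map_add, map_mul, map_mul, map_mul, hπG]
    ring
  have h3 : ∀ h, π (ι (δ (δ h))) = π (ι (dY G)) * (π (dX'' (ι (dY G))) * π (dX'' (ι h)) +
      π (ι (dY G)) * π (dX'' (dX'' (ι h)))) := by
    intro h
    rw [h1, h2]
  -- the expression modulo the equation
  have hT : π (ι (A * dt p (fun i => δ (p i)) (fun i => δ (δ (p i))) +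
      eval (fun i => δ (p i)) b)) = π (ι (dY G)) ^ 3 *
        π (bloc dX'' dG' (fun i => ι (p i)) (ι A) (map (ι : O →+* O') b) 0) := by
    rw [bloc_zero _ _ _ _ _ (hb.map _)]
    have e1 : π (ι (dt p (fun i => δ (p i)) (fun i => δ (δ (p i))))) =
        π (ι (dY G)) ^ 3 * π (dt (fun i => ι (p i)) (fun i => dX'' (ι (p i)))
          (fun i => dX'' (dX'' (ι (p i))))) := by
      have e2 := dt_map (π.comp (ι : O →+* O')) p (fun i => δ (p i)) (fun i => δ (δ (p i)))
      have e3 : π (ι (dt p (fun i => δ (p i)) (fun i => δ (δ (p i))))) =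
          dt (fun i => π (ι (p i))) (fun i => π (ι (dY G)) * π (dX'' (ι (p i))))
            (fun i => π (ι (δ (δ (p i))))) := by
        refine e2.trans ?_
        congr 1
        funext i
        exact h1 (p i)
      rw [e3, dt_map, dt_dir _ (fun i => π (dX'' (ι (p i))))
        (fun i => π (dX'' (dX'' (ι (p i))))) _ (π (ι (dY G))) (π (dX'' (ι (dY G))))
        (fun i => h3 (p i))]
    have e4 : π (ι (eval (fun i => δ (p i)) b)) = π (ι (dY G)) ^ 3 *
        π (eval (fun i => dX'' (ι (p i))) (map (ι : O →+* O') b)) := by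
      have e5 := eval_mp (π.comp (ι : O →+* O')) (fun i => δ (p i)) b
      have e6 := eval_mp π (fun i => dX'' (ι (p i))) (map (ι : O →+* O') b)
      have e7 := Pool.Agent.H70.SF.eval_scale 3 (map (π.comp (ι : O →+* O')) b)
        (hb.map _) (π (ι (dY G))) (fun i => π (dX'' (ι (p i))))
      have e8 : π (ι (eval (fun i => δ (p i)) b)) =
          eval (fun i => π (dX'' (ι (p i))) * π (ι (dY G)))
            (map (π.comp (ι : O →+* O')) b) := by
        refine e5.trans ?_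
        congr 1
        refine congrArg _ ?_
        funext i
        rw [mul_comm]
        exact h1 (p i)
      rw [e8, e7, e6, map_map, mul_comm]
    rw [map_add, map_add, map_mul, map_mul, e1, e4, map_add, map_mul]
    ring
  have hall : G' ∣ ι (dY G) ^ 3 *
      bloc dX'' dG' (fun i => ι (p i)) (ι A) (map (ι : O →+* O') b) 0 * ι E := by
    rw [← Ideal.mem_span_singleton, ← Ideal.Quotient.eq_zero_iff_mem]
    change π _ = 0
    rw [map_mul, map_mul, map_pow, ← hT, ← map_mul, ← map_mul, hm, map_mul, hG, map_mul, map_mul,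
      hπG]
    ring
  have hnl : ¬ G' ∣ ι (dY G) := by
    rw [hl]
    intro h
    rcases hpr.dvd_or_dvd h with h | h
    · exact hnX h
    · exact hpr.not_isUnit (isUnit_of_dvd_one (h.trans ⟨η, hη.symm⟩))
  rcases hpr.dvd_or_dvd hall with h | h
  · rcases hpr.dvd_or_dvd h with h | h
    · exact absurd (hpr.dvd_of_dvd_pow h) hnl
    · exact Or.inl h
  · exact Or.inr h

/-- the leading coefficient in the frame of the blow-up -/
theorem aloc_eq {X : O} {dX dY : Derivation k O O} {ι : O →ₐ[k] O'} {Z : O'}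
    {dX' dZ' dX'' dG' : Derivation k O' O'} {G' η : O'}
    (hdZ : ∀ h, dZ' (ι h) = ι X * ι (dY h)) (hdX : ∀ h, dX' (ι h) = ι (dX h) + Z * ι (dY h))
    (hdG : ∀ h, dG' h = η * dZ' h) (hdX'' : ∀ h, dX'' h = dX' h - dX' G' * dG' h)
    (p : Fin 3 → O) (A : O) : Aloc dX'' dG' (fun i => ι (p i)) (ι A) =
      η * ι X * ι (A * dt p (fun i => dX (p i)) (fun i => dY (p i))) := by
  have e1 := dt_map (ι : O →+* O') p (fun i => dX (p i)) (fun i => dY (p i))
  have e2 : ι (dt p (fun i => dX (p i)) (fun i => dY (p i))) =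
      dt (fun i => ι (p i)) (fun i => ι (dX (p i))) (fun i => ι (dY (p i))) := e1
  have e3 := dt_frame (fun i => ι (p i)) (fun i => ι (dX (p i))) (fun i => ι (dY (p i)))
    (fun i => dX'' (ι (p i))) (fun i => dG' (ι (p i))) Z η (ι X) (dX' G')
    (fun i => by rw [hdX'', hdX]) (fun i => by rw [hdG, hdZ])
  unfold Aloc
  rw [e3, map_mul, e2]
  ring

end local_

theorem pf_LCX (hPRI : T_PRI) (hFRG : T_FRG) (hBLW : T_BLW) (hLC2 : T_LC2) (hCHK : T_CHK)
    (hBDV : T_BDV) (hTRY : T_TRY) : T_LCX := by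
  intro k O _ _ _ _ _ _ _ ε X Y dX dY hFrm G hG p A b E N hb hEA hdvd
  obtain ⟨O', _, _, _, _, ι, ε', Z, dX', dZ', hinj, hYZ, hεε, hFrm', hdZ, hdX, hlift⟩ :=
    hBLW k O ε X Y dX dY hFrm
  have hX0 : X ≠ 0 := by
    intro h
    have := hFrm.xx
    rw [h, map_zero] at this
    exact zero_ne_one this
  have hξ : ι X ≠ 0 := by
    rw [Ne, map_eq_zero_iff ι hinj]
    exact hX0
  -- the equation of the curve in the blow-up
  obtain ⟨ρ, hρ⟩ : ∃ ρ, ι G = ι X ^ 2 * (Z + ι X * ρ) := by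
    have h1 : ι (G - X * Y) ∈ Ideal.span {ι X ^ 3} := by
      have h2 := Ideal.mem_map_of_mem (ι : O →+* O') hG
      rw [Ideal.map_pow, Ideal.map_span] at h2
      have h3 : Ideal.span ((ι : O →+* O') '' {X, Y}) ≤ Ideal.span {ι X} := by
        rw [Ideal.span_le]
        rintro _ ⟨z, hz, rfl⟩
        rcases hz with rfl | hz
        · exact Ideal.mem_span_singleton_self _
        · rw [Set.mem_singleton_iff.mp hz]
          change ι Y ∈ _
          rw [hYZ]
          exact Ideal.mem_span_singleton.mpr ⟨Z, rfl⟩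
      have h4 := Ideal.pow_right_mono h3 3 h2
      rwa [Ideal.span_singleton_pow] at h4
    obtain ⟨ρ, hρ⟩ := Ideal.mem_span_singleton.mp h1
    refine ⟨ρ, ?_⟩
    rw [map_sub, map_mul, hYZ] at hρ
    linear_combination hρ
  obtain ⟨η, dX'', dG', hF2, hη0, hdG, hdX''⟩ := hFRG k O' ε' (ι X) Z dX' dZ' hFrm' ρ
  obtain ⟨G', hG'⟩ : ∃ G', G' = Z + ι X * ρ := ⟨_, rfl⟩
  rw [← hG'] at hF2 hρ
  simp only [← hG'] at hdX''
  have hη : dZ' G' * η = 1 := by
    have := hF2.gg
    rw [hdG] at this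
    rw [mul_comm]
    exact this
  obtain ⟨hpr, hnX⟩ := hPRI k O' ε' (ι X) G' dX'' dG' hF2
  have hcase := bloc_dvd hξ hFrm'.xx hFrm'.gx hρ hdZ hdX hdG hdX'' hη hF2.xg hpr hnX p A b E hb
    hdvd
  have hAl := aloc_eq (G' := G') hdZ hdX hdG hdX'' p A
  have hmain : ∃ C : ℕ, ∀ (K : Type) [Field K] [Algebra k K] [Algebra.EssFiniteType k K],
      Algebra.trdeg k K = 1 → ∀ (D : Derivation k K K), D ≠ 0 → ∀ (x : O →ₐ[k] K) (v : DV k K)
      (x' : O' →ₐ[k] K), (∀ h, x' (ι h) = x h) → (∀ h, ge v 0 (x' h)) →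
      (∀ h, ε' h = 0 → ge v 1 (x' h)) → x' G' ≠ 0 → x X ≠ 0 →
      x (A * dt p (fun i => dX (p i)) (fun i => dY (p i))) ≠ 0 →
      IntermediateField.adjoin k (Set.range x) = ⊤ →
      x A * dt (fun i => x (p i)) (fun i => D (x (p i))) (fun i => D (D (x (p i)))) +
        eval₂ (x : O →+* K) (fun i => D (x (p i))) b = 0 →
      v.ord (x' G') ≤ v.ord (x (A * dt p (fun i => dX (p i)) (fun i => dY (p i)))) +
        v.ord (x X) ∨ v.ord (x' G') ≤ C := by
    rcases hcase with h0 | hE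
    · obtain ⟨C, -, hC⟩ := hLC2 k O' ε' (ι X) G' dX'' dG' hF2
        (Aloc dX'' dG' (fun i => ι (p i)) (ι A))
        (bloc dX'' dG' (fun i => ι (p i)) (ι A) (map (ι : O →+* O') b)) h0
      refine ⟨C, ?_⟩
      intro K _ _ _ htr D hD x v x' hx' hge0' hge1' hG0 hxX hxAj hadj heq
      have hηη : x' (dZ' G') * x' η = 1 := by rw [← map_mul, hη, map_one]
      have hηx : x' η ≠ 0 := right_ne_zero_of_mul_eq_one hηη
      have hordη : v.ord (x' η) = 0 :=
        ord_unit (hge0' η) (hge0' (dZ' G')) (by rw [mul_comm]; exact hηη)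
      have hAx : x' (Aloc dX'' dG' (fun i => ι (p i)) (ι A)) =
          x' η * x X * x (A * dt p (fun i => dX (p i)) (fun i => dY (p i))) := by
        rw [hAl, map_mul, map_mul, hx', hx']
      have hAx0 : x' (Aloc dX'' dG' (fun i => ι (p i)) (ι A)) ≠ 0 := by
        rw [hAx]
        exact mul_ne_zero (mul_ne_zero hηx hxX) hxAj
      have hordA : v.ord (x' (Aloc dX'' dG' (fun i => ι (p i)) (ι A))) =
          v.ord (x (A * dt p (fun i => dX (p i)) (fun i => dY (p i)))) + v.ord (x X) := by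
        rw [hAx, v.ord_mul _ _ (mul_ne_zero hηx hxX) hxAj, v.ord_mul _ _ hηx hxX, hordη]
        ring
      have hadj' : IntermediateField.adjoin k (Set.range x') = ⊤ := by
        rw [← top_le_iff, ← hadj]
        refine IntermediateField.adjoin.mono k _ _ ?_
        rintro _ ⟨h, rfl⟩
        exact ⟨ι h, hx' h⟩
      have hchain := hCHK k O' K ε' (ι X) G' dX'' dG' hF2 x' v hge0' hge1' D
        (hBDV k K htr D v)
      have hEq := hTRY k O' K (ι X) G' dX'' dG' x' D hchain (fun i => ι (p i)) (ι A)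
        (map (ι : O →+* O') b) (hb.map _) (by
          rw [eval₂_map]
          have h1 : (x' : O' →+* K).comp (ι : O →+* O') = (x : O →+* K) := RingHom.ext hx'
          rw [h1]
          simp only [hx']
          exact heq)
      have h2 := hC K htr D hD x' v hge0' hge1' hG0 hAx0 hadj' hEq
      rw [hordA] at h2
      exact h2
    · refine ⟨0, ?_⟩
      intro K _ _ _ htr D hD x v x' hx' hge0' hge1' hG0 hxX hxAj hadj heq
      left
      have h1 : G' ∣ ι A := by
        refine hpr.dvd_of_dvd_pow (n := N) ?_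
        rw [← map_pow]
        exact hE.trans (map_dvd ι hEA)
      obtain ⟨q, hq⟩ := h1
      rw [map_mul] at hxAj ⊢
      have hxA : x A ≠ 0 := left_ne_zero_of_mul hxAj
      have hxj := right_ne_zero_of_mul hxAj
      have h2 : x A = x' G' * x' q := by rw [← hx', hq, map_mul]
      have hxq : x' q ≠ 0 := by
        intro h
        rw [h2, h, mul_zero] at hxA
        exact hxA rfl
      rw [v.ord_mul _ _ hxA hxj, h2, v.ord_mul _ _ hG0 hxq]
      have h3 := ge_ord (hge0' q) hxq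
      have h4 : 0 ≤ v.ord (x (dt p (fun i => dX (p i)) (fun i => dY (p i)))) := by
        refine ge_ord ?_ hxj
        rw [← hx']
        exact hge0' _
      have h5 : 0 ≤ v.ord (x X) := by
        refine ge_ord ?_ hxX
        rw [← hx']
        exact hge0' _
      omega
  obtain ⟨C, hC⟩ := hmain
  refine ⟨C, ?_⟩
  intro K _ _ _ htr D hD x v hge0 hge1 hxG hxAj hadj heq hxX hord
  obtain ⟨x', hx', hge0', hge1'⟩ := hlift K x v hge0 hge1 hxX hord
  have hxG' : x G = x X ^ 2 * x' G' := by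
    rw [← hx' G, hρ, map_mul, map_pow, hx']
  have hG0 : x' G' ≠ 0 := by
    intro h
    rw [hxG', h, mul_zero] at hxG
    exact hxG rfl
  have hordG : v.ord (x G) = 2 * v.ord (x X) + v.ord (x' G') := by
    rw [hxG', pow_two, v.ord_mul _ _ (mul_ne_zero hxX hxX) hG0, v.ord_mul _ _ hxX hxX]
    ring
  have h5 : 0 ≤ v.ord (x X) := ge_ord (hge0 X) hxX
  rcases hC K htr D hD x v x' hx' hge0' hge1' hG0 hxX hxAj hadj heq with h | h
  · left
    omega
  · right
    omega

end Pool.Agent.H10.S2
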