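import Pool.Agent.H84.S2.TgD
import Pool.Agent.H62.HIL.Eig

/-!
# MP_70ba79_ag, row D_PSV: the section which belongs to the form
-/

set_option autoImplicit false

namespace Pool.Agent.H10.S2

open MvPolynomial SC
open Pool.Agent.H27.LV (ge deg poleOrder canDeg)
open Pool.Agent.H84.SM (cr dt dp)
open Pool.Agent.H92.SF (Q2 C3 ev2 cc pc wc rv muc Psi WH)
open Pool.Agent.H3.SF (Itg Bb BB Hm eu grd hes Sfc Crd Cnn Crf Prm nv Vl VQ evc FE E Ps Tw Sec)
open Pool.Agent.H84.SF
open Pool.Agent.H3.S2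
open Pool.Agent.H84.S2
open Pool.Agent.H62.HIL (hm_mul hm_add hm_neg hm_algebraMap hm_one hm_zero hm_pow hm_sum hm_div
  hm_aeval)

section PH

variable {k F ι : Type} [Field k] [Field F] [Algebra k F]

/-- all coefficients are homogeneous of degree `d` -/
def PH (E : Derivation k F F) (d : ℤ) (Q : MvPolynomial ι F) : Prop := ∀ a, Hm k E d (Q.coeff a)

variable {E : Derivation k F F}

theorem PH.mul {d e : ℤ} {P Q : MvPolynomial ι F} (hP : PH E d P) (hQ : PH E e Q) :
    PH E (d + e) (P * Q) := by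
  classical
  intro a
  rw [coeff_mul]
  exact hm_sum _ _ fun x _ => hm_mul (hP x.1) (hQ x.2)

theorem PH.add {d : ℤ} {P Q : MvPolynomial ι F} (hP : PH E d P) (hQ : PH E d Q) :
    PH E d (P + Q) := by
  intro a
  rw [coeff_add]
  exact hm_add (hP a) (hQ a)

theorem PH.C {d : ℤ} {c : F} (hc : Hm k E d c) : PH E d (C c : MvPolynomial ι F) := by
  classical
  intro a
  rw [coeff_C]
  split_ifs
  · exact hc
  · exact hm_zero d

theorem PH.neg {d : ℤ} {P : MvPolynomial ι F} (hP : PH E d P) : PH E d (-P) := by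
  intro a
  rw [coeff_neg]
  exact hm_neg (hP a)

theorem PH.X (i : ι) : PH E 0 (X i : MvPolynomial ι F) := by
  classical
  intro a
  rw [coeff_X]
  split_ifs
  · exact hm_one
  · exact hm_zero 0

theorem PH.pow {P : MvPolynomial ι F} (hP : PH E 0 P) (n : ℕ) : PH E 0 (P ^ n) := by
  induction n with
  | zero =>
    rw [pow_zero]
    exact PH.C (c := 1) hm_one
  | succ n ih =>
    rw [pow_succ]
    have := ih.mul hP
    rwa [add_zero] at this

theorem PH.sum {τ : Type} {d : ℤ} (s : Finset τ) (f : τ → MvPolynomial ι F)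
    (h : ∀ i ∈ s, PH E d (f i)) : PH E d (∑ i ∈ s, f i) := by
  intro a
  rw [coeff_sum]
  exact hm_sum _ _ fun i hi => h i hi a

theorem PH.aeval {f : Fin 3 → MvPolynomial ι F} (hf : ∀ i, PH E 0 (f i))
    {B : MvPolynomial (Fin 3) F} {e : ℤ} (hB : ∀ a, Hm k E e (B.coeff a)) :
    PH E e (aeval f B) := by
  rw [B.as_sum, map_sum]
  refine PH.sum _ _ fun b _ => ?_
  rw [aeval_monomial, Finsupp.prod_fintype _ _ (fun _ => pow_zero _), Fin.prod_univ_three]
  have h1 := ((PH.C (ι := ι) (hB b)).mul ((((hf 0).pow (b 0)).mul ((hf 1).pow (b 1))).mul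
    ((hf 2).pow (b 2))))
  have h2 : e + (0 + 0 + 0) = e := by ring
  rw [h2] at h1
  exact h1

end PH

section Tr

variable {F R : Type} [Field F] [CommRing R] [IsDomain R] [CharZero R]

/-- chain rule -/
theorem der_ev (φ : F →+* R) (x : Fin 3 → Polynomial R) (B : MvPolynomial (Fin 3) F) :
    Polynomial.derivative (eval₂Hom (Polynomial.C.comp φ) x B) =
      ∑ l, Polynomial.derivative (x l) * eval₂Hom (Polynomial.C.comp φ) x (pderiv l B) := by
  induction B using MvPolynomial.induction_on with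
  | C a => simp
  | add p q hp hq =>
    rw [map_add, map_add, hp, hq, ← Finset.sum_add_distrib]
    refine Finset.sum_congr rfl fun l _ => ?_
    rw [map_add, map_add, mul_add]
  | mul_X p i hp =>
    rw [map_mul, Polynomial.derivative_mul, hp, eval₂Hom_X', Finset.sum_mul]
    have e : Polynomial.derivative (x i) = ∑ l, Polynomial.derivative (x l) *
        (Pi.single i 1 : Fin 3 → Polynomial R) l := by
      rw [Finset.sum_eq_single i]
      · rw [Pi.single_eq_same, mul_one]
      · intro j _ hj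
        rw [Pi.single_eq_of_ne hj, mul_zero]
      · intro h
        exact absurd (Finset.mem_univ i) h
    rw [e, Finset.mul_sum, ← Finset.sum_add_distrib]
    refine Finset.sum_congr rfl fun l _ => ?_
    rw [Derivation.leibniz, pderiv_X, smul_eq_mul, smul_eq_mul, map_add, map_mul, map_mul,
      eval₂Hom_X']
    have e2 : eval₂Hom (Polynomial.C.comp φ) x ((Pi.single l 1 : Fin 3 → MvPolynomial (Fin 3) F) i)
        = (Pi.single i 1 : Fin 3 → Polynomial R) l := by
      by_cases h : l = i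
      · rw [h, Pi.single_eq_same, Pi.single_eq_same, map_one]
      · rw [Pi.single_eq_of_ne h, Pi.single_eq_of_ne (Ne.symm h), map_zero]
    rw [e2]
    ring

/-- invariance under translations -/
theorem transl (φ : F →+* R) (B : MvPolynomial (Fin 3) F) (g : Fin 3 → F)
    (h : ∑ l, C (g l) * pderiv l B = 0) (y : Fin 3 → R) (c : R) :
    eval₂Hom φ (fun i => φ (g i) * c + y i) B = eval₂Hom φ y B := by
  obtain ⟨x, hx⟩ : ∃ x : Fin 3 → Polynomial R, x = fun i =>
    Polynomial.C (φ (g i)) * Polynomial.X + Polynomial.C (y i) := ⟨_, rfl⟩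
  have h1 : Polynomial.derivative (eval₂Hom (Polynomial.C.comp φ) x B) = 0 := by
    rw [der_ev]
    have e : ∀ l, Polynomial.derivative (x l) * eval₂Hom (Polynomial.C.comp φ) x (pderiv l B) =
        eval₂Hom (Polynomial.C.comp φ) x (C (g l) * pderiv l B) := by
      intro l
      rw [map_mul, eval₂Hom_C, hx]
      simp
    rw [Finset.sum_congr rfl fun l _ => e l, ← map_sum, h, map_zero]
  have h2 := Polynomial.eq_C_of_natDegree_eq_zero
    (Polynomial.derivative_eq_zero.1 h1)
  have h3 : ∀ a : R, Polynomial.eval a (eval₂Hom (Polynomial.C.comp φ) x B) =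
      eval₂Hom φ (fun i => φ (g i) * a + y i) B := by
    intro a
    have : ((Polynomial.evalRingHom a).comp (eval₂Hom (Polynomial.C.comp φ) x)) =
        eval₂Hom φ (fun i => φ (g i) * a + y i) := by
      apply MvPolynomial.ringHom_ext
      · intro r
        simp
      · intro i
        rw [RingHom.comp_apply, eval₂Hom_X', eval₂Hom_X', hx]
        simp
    exact DFunLike.congr_fun this B
  have h4 := h3 0
  have h5 := h3 c
  rw [h2, Polynomial.eval_C] at h4 h5
  rw [← h5, h4]
  congr 2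
  funext i
  rw [mul_zero, zero_add]

omit [IsDomain R] [CharZero R] in
/-- scaling -/
theorem scal (φ : F →+* R) (B : MvPolynomial (Fin 3) F) (n : ℕ) (hB : B.IsHomogeneous n)
    (y : Fin 3 → R) (c : R) :
    eval₂Hom φ (fun i => c * y i) B = c ^ n * eval₂Hom φ y B := by
  rw [coe_eval₂Hom, coe_eval₂Hom, eval₂_eq', eval₂_eq', Finset.mul_sum]
  refine Finset.sum_congr rfl fun m hm => ?_
  have h1 : ∑ i, m i = n := by
    have h2 : Finsupp.weight (fun _ => 1) m = n := hB (mem_support_iff.1 hm)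
    rw [← Finsupp.degree_eq_weight_one] at h2
    rw [← Finsupp.degree_eq_sum]
    exact h2
  simp_rw [mul_pow]
  rw [Finset.prod_mul_distrib, Finset.prod_pow_eq_pow_sum, h1]
  ring

end Tr

/-- PSV: the section which belongs to the form -/
theorem pf_PSV : T_PSV := by
  intro k F _ _ _ _ _ u dd δ j0 c0 J hS m G hm hG0 hG n t e he ht B hB0 hBh hBc hBd
  have : CharZero F := charZero_of_injective_algebraMap (algebraMap k F).injective
  obtain ⟨D, hD⟩ : ∃ D, D = eu u dd := ⟨_, rfl⟩
  have hu : ∀ i, Hm k D 1 (u i) := by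
    intro i
    rw [hD]
    unfold Hm eu
    have h : ((∑ l, u l • dd l : Derivation k F F)) (u i) = ∑ l, u l * dd l (u i) := by
      rw [Fin.sum_univ_three, Fin.sum_univ_three]
      rfl
    rw [h, Int.cast_one, one_mul]
    simp only [hS.du, mul_ite, mul_one, mul_zero]
    rw [Finset.sum_ite_eq' Finset.univ i u, if_pos (Finset.mem_univ i)]
  have hEG : ∑ l, u l * dd l G = (m : F) * G := by
    have h1 : (eu u dd) G = ((m : ℤ) : F) * G := hG
    rw [Int.cast_natCast] at h1
    rw [← h1]
    unfold eu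
    rw [Fin.sum_univ_three, Fin.sum_univ_three]
    rfl
  have hu0 : u 0 ≠ 0 := by
    intro h
    have h1 := hS.du 0 0
    rw [h, map_zero, if_pos rfl] at h1
    exact zero_ne_one h1
  obtain ⟨s, hs⟩ : ∃ s, s = aeval u J := ⟨_, rfl⟩
  have hs0 : s ≠ 0 := by
    rw [hs]
    intro h
    apply hS.J0
    apply hS.ind
    rw [h, map_zero]
  have hsh : Hm k D j0 s := by
    rw [hs]
    exact hm_aeval hu hS.Jh
  obtain ⟨M, hM⟩ : ∃ M, M = (m : F) * G := ⟨_, rfl⟩
  have hM0 : M ≠ 0 := by
    rw [hM]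
    refine mul_ne_zero (Nat.cast_ne_zero.2 (by omega)) hG0
  have hMh : Hm k D m (-M) := by
    rw [hM]
    have h1 : Hm k D 0 (m : F) := by
      have := hm_algebraMap (F := F) (E := D) (m : k)
      rwa [map_natCast] at this
    rw [← hD] at hG
    have h2 := hm_neg (hm_mul h1 hG)
    rwa [zero_add] at h2
  obtain ⟨c, hc⟩ : ∃ c, c = 1 / (s ^ (2 * n) * (-M) ^ n) := ⟨_, rfl⟩
  have hd0 : s ^ (2 * n) * (-M) ^ n ≠ 0 :=
    mul_ne_zero (pow_ne_zero _ hs0) (pow_ne_zero _ (neg_ne_zero.2 hM0))
  have hch : Hm k D (0 - (((2 * n : ℕ) : ℤ) * j0 + (n : ℤ) * m)) c := by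
    rw [hc]
    exact hm_div hm_one (hm_mul (hm_pow hsh _) (hm_pow hMh _)) hd0
  obtain ⟨f, hf⟩ : ∃ f : Fin 3 → MvPolynomial (Fin 2) F, f =
    ![- (C (u 1 / u 0) * X 0 + C (u 2 / u 0) * X 1), X 0, X 1] := ⟨_, rfl⟩
  have hf0 : f 0 = - (C (u 1 / u 0) * X 0 + C (u 2 / u 0) * X 1) := by rw [hf]; rfl
  have hf1 : f 1 = X 0 := by rw [hf]; rfl
  have hf2 : f 2 = X 1 := by rw [hf]; rfl
  have hfh : ∀ i, PH D 0 (f i) := by
    have hr : ∀ j, Hm k D 0 (u j / u 0) := by
      intro j
      have := hm_div (hu j) (hu 0) hu0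
      rwa [sub_self] at this
    intro i
    fin_cases i
    · change PH D 0 (f 0)
      rw [hf0]
      have h1 := (PH.C (ι := Fin 2) (hr 1)).mul (PH.X (E := D) 0)
      have h2 := (PH.C (ι := Fin 2) (hr 2)).mul (PH.X (E := D) 1)
      rw [add_zero] at h1 h2
      exact (h1.add h2).neg
    · change PH D 0 (f 1)
      rw [hf1]
      exact PH.X 0
    · change PH D 0 (f 2)
      rw [hf2]
      exact PH.X 1
  have hfH : ∀ i, (f i).IsHomogeneous 1 := by
    intro i
    fin_cases i
    · change (f 0).IsHomogeneous 1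
      rw [hf0]
      have h1 := (isHomogeneous_C (Fin 2) (u 1 / u 0)).mul (isHomogeneous_X F (0 : Fin 2))
      have h2 := (isHomogeneous_C (Fin 2) (u 2 / u 0)).mul (isHomogeneous_X F (1 : Fin 2))
      rw [zero_add] at h1 h2
      exact (h1.add h2).neg
    · change (f 1).IsHomogeneous 1
      rw [hf1]
      exact isHomogeneous_X F (0 : Fin 2)
    · change (f 2).IsHomogeneous 1
      rw [hf2]
      exact isHomogeneous_X F (1 : Fin 2)
  obtain ⟨Q, hQ⟩ : ∃ Q : MvPolynomial (Fin 2) F, Q = C c * aeval f B := ⟨_, rfl⟩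
  have hQh : PH D (0 - (((2 * n : ℕ) : ℤ) * j0 + (n : ℤ) * m) + e) Q := by
    rw [hQ]
    refine (PH.C hch).mul (PH.aeval hfh fun a => ?_)
    rw [hD]
    exact (hBc a).2
  have hQH : Q.IsHomogeneous n := by
    rw [hQ]
    have h1 := hBh.aeval f hfH
    have h2 := (isHomogeneous_C (Fin 2) c).mul h1
    rwa [zero_add, one_mul] at h2
  -- the substitution
  obtain ⟨p, hp⟩ : ∃ p : Fin 3 → C3 F, p = pc m u (grd dd G) G s := ⟨_, rfl⟩
  have hpi : ∀ i, p i = cc s ^ 2 * (cc (dd i G) * muc u + -cc M * rv i) := by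
    intro i
    rw [hp, hM]
    unfold pc grd
    ring
  have hdp : cc (u 0) * p 0 + cc (u 1) * p 1 + cc (u 2) * p 2 = 0 := by
    have h1 : cc (u 0) * cc (dd 0 G) + cc (u 1) * cc (dd 1 G) + cc (u 2) * cc (dd 2 G) =
        (cc M : C3 F) := by
      rw [← map_mul, ← map_mul, ← map_mul, ← map_add, ← map_add, hM, ← hEG, Fin.sum_univ_three]
    have h2 : (muc u : C3 F) = cc (u 0) * rv 0 + cc (u 1) * rv 1 + cc (u 2) * rv 2 := by
      unfold muc dp
      first
        | rfl
        | rw [Fin.sum_univ_three]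
    rw [hpi, hpi, hpi]
    linear_combination (cc s ^ 2 * muc u) * h1 + (-(cc s ^ 2) * cc M) * (-h2)
  have hp0 : p 0 = -(cc (u 1 / u 0) * p 1 + cc (u 2 / u 0) * p 2) := by
    have h1 : (cc (u 0)⁻¹ : C3 F) * cc (u 0) = 1 := by
      rw [← map_mul, inv_mul_cancel₀ hu0, map_one]
    rw [div_eq_inv_mul, div_eq_inv_mul, map_mul, map_mul]
    linear_combination (cc (u 0)⁻¹) * hdp - p 0 * h1
  have hPs : Ps u dd J m G (Polynomial.C Q) = Polynomial.C B := by
    have e1 : Ps u dd J m G (Polynomial.C Q) = eval₂Hom cc ![p 1, p 2] Q := by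
      unfold Ps Psi ev2
      rw [← hs, ← hp, Polynomial.coe_eval₂RingHom, Polynomial.eval₂_C]
    have e2 : ∀ P : MvPolynomial (Fin 3) F, eval₂Hom (cc : F →+* C3 F) ![p 1, p 2] (aeval f P) =
        eval₂Hom cc p P := by
      intro P
      have : ((eval₂Hom (cc : F →+* C3 F) ![p 1, p 2]).comp (aeval f).toRingHom) =
          eval₂Hom cc p := by
        apply MvPolynomial.ringHom_ext
        · intro r
          simp
        · intro i
          rw [RingHom.comp_apply, eval₂Hom_X']
          change eval₂Hom cc ![p 1, p 2] (aeval f (X i)) = p i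
          rw [aeval_X]
          fin_cases i
          · change eval₂Hom cc ![p 1, p 2] (f 0) = p 0
            rw [hf0, hp0]
            simp
          · change eval₂Hom cc ![p 1, p 2] (f 1) = p 1
            rw [hf1]
            simp
          · change eval₂Hom cc ![p 1, p 2] (f 2) = p 2
            rw [hf2]
            simp
      exact DFunLike.congr_fun this P
    have e3 : eval₂Hom (cc : F →+* C3 F) p B = (cc s ^ 2) ^ n * ((-cc M) ^ n *
        eval₂Hom cc rv B) := by
      have h1 : p = fun i => cc s ^ 2 * (cc (dd i G) * muc u + -cc M * rv i) := funext hpi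
      rw [h1, scal cc B n hBh, transl cc B (fun i => dd i G) hBd, scal cc B n hBh]
    have e4 : eval₂Hom (cc : F →+* C3 F) rv B = Polynomial.C B := by
      have : eval₂Hom (cc : F →+* C3 F) rv = Polynomial.C := by
        apply MvPolynomial.ringHom_ext
        · intro r
          rw [eval₂Hom_C]
          rfl
        · intro i
          rw [eval₂Hom_X']
          rfl
      exact DFunLike.congr_fun this B
    rw [e1, hQ, map_mul, eval₂Hom_C, e2, e3, e4, ← mul_assoc, ← mul_assoc, ← map_neg, ← map_pow,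
      ← map_pow, ← map_pow, ← map_mul, ← map_mul, ← pow_mul, hc, one_div, mul_assoc,
      inv_mul_cancel₀ hd0, map_one, one_mul]
  refine ⟨n, t, Polynomial.C Q, ht, ?_, Polynomial.natDegree_C _, ⟨⟨?_, ?_⟩, ?_⟩⟩
  · intro h
    rw [h, map_zero] at hPs
    apply hB0
    exact (Polynomial.C_eq_zero.1 hPs.symm)
  · intro j
    rcases Nat.eq_zero_or_pos j with h0 | h0
    · subst h0
      refine ⟨fun _ => ?_, fun h => absurd h (by omega)⟩
      rw [Polynomial.coeff_C_zero]
      exact hQH
    · rw [Polynomial.coeff_C_of_ne_zero (by omega)]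
      exact ⟨fun _ => isHomogeneous_zero _ _ _, fun _ => rfl⟩
  · intro j a
    rcases Nat.eq_zero_or_pos j with h0 | h0
    · subst h0
      rw [Polynomial.coeff_C_zero, ← hD]
      have h1 := hQh a
      have h2 : (0 - (((2 * n : ℕ) : ℤ) * j0 + (n : ℤ) * m) + e) =
          -(t : ℤ) - 2 * n + 3 * ((0 : ℕ) : ℤ) := by
        rw [he]
        push_cast
        ring
      rwa [h2] at h1
    · rw [Polynomial.coeff_C_of_ne_zero (by omega), coeff_zero]
      exact hm_zero _
  · intro j a
    rw [hPs]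
    rcases Nat.eq_zero_or_pos j with h0 | h0
    · subst h0
      rw [Polynomial.coeff_C_zero]
      exact (hBc a).1
    · rw [Polynomial.coeff_C_of_ne_zero (by omega), coeff_zero]
      exact (Bb k u).zero_mem

end Pool.Agent.H10.S2
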